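import Pool.Agent.N848.LT.Stm

/-!
# LT/STEP: the property `PP` goes up (helper720, project LT of helper848)
-/

set_option autoImplicit false

namespace Pool.Agent.N720.LT

open NumberField IsDedekindDomain Module Pool.Agent.N848.LT

/-- invariance under multiplication by squares -/
theorem Un.of_sq {K : Type} [Field K] [NumberField K] {v : HeightOneSpectrum (𝓞 K)} {a b h : K}
    (hU : Un v a) (e : a = b * h ^ 2) : Un v b := by
  obtain ⟨y, h1, h2⟩ := hU
  refine ⟨h * y, ?_, ?_⟩
  · have : b * (h * y) ^ 2 = a * y ^ 2 := by rw [e]; ring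
    rw [this]; exact h1
  · have : b * (h * y) ^ 2 = a * y ^ 2 := by rw [e]; ring
    rw [this]; exact h2

/-- division -/
theorem Un.of_mul {K : Type} [Field K] [NumberField K] {v : HeightOneSpectrum (𝓞 K)} {b m : K}
    (hA : Un v (b * m)) (hB : Un v m) : Un v b := by
  obtain ⟨y, h1, h2⟩ := hA
  obtain ⟨z, h3, h4⟩ := hB
  have e : b * (y * z * m) ^ 2 = (b * m * y ^ 2) * (m * z ^ 2) := by ring
  refine ⟨y * z * m, ?_, ?_⟩
  · rw [e, map_mul, h1, h3, one_mul]
  · rw [e]
    have e2 : (b * m * y ^ 2) * (m * z ^ 2) - 1 =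
        (b * m * y ^ 2) * (m * z ^ 2 - 1) + (b * m * y ^ 2 - 1) := by ring
    rw [e2]
    refine (Valuation.map_add _ _ _).trans (max_le ?_ h2)
    rw [map_mul, h1, one_mul]
    exact h4

theorem t_STEP (hUN : S_UN) (hUP : S_UP) (hVF : S_VF) (hHIL : S_HIL) (hNRM : S_NRM) : S_STEP := by
  intro F F' K K' _ _ _ _ _ _ _ _ _ _ _ _ _ _ _ m s hs hm hF hK hodd hram hPP
  obtain ⟨hn1, hn2, hn3, hn4, hn5⟩ := hNRM F F' K K' m s hs hm hF hK hodd
  have hs' : (algebraMap F' K' s) ^ 2 = algebraMap K K' (algebraMap F K m) := by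
    rw [← map_pow, hs, ← IsScalarTower.algebraMap_apply F F' K',
      ← IsScalarTower.algebraMap_apply F K K']
  have hm0 : m ≠ 0 := by
    rintro rfl
    exact hm ⟨0, by ring⟩
  have hm0' : algebraMap F K m ≠ 0 := by
    rw [Ne, map_eq_zero]
    exact hm0
  have hs0 : algebraMap F' K' s ≠ 0 := by
    intro h
    rw [h] at hs'
    have h1 : algebraMap K K' (algebraMap F K m) = 0 := by rw [← hs']; ring
    rw [map_eq_zero] at h1
    exact hm0' h1
  obtain ⟨j, hj⟩ := hodd
  have hnm : Algebra.norm F (algebraMap F K m) = m * (m ^ j) ^ 2 := by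
    rw [Algebra.norm_algebraMap, hj]
    ring
  intro f hf0 hfU hfN
  have hg0 : Algebra.norm K f ≠ 0 := by
    rw [Algebra.norm_ne_zero_iff]
    exact hf0
  have hgU : ∀ v : HeightOneSpectrum (𝓞 K), Un v (Algebra.norm K f) := fun v =>
    hUN K K' v f (fun w _ => hfU w) hf0
  have hgN : IsSquare (Algebra.norm F (Algebra.norm K f)) := by
    rw [← hn5]
    exact hfN.map (Algebra.norm F)
  obtain ⟨c, hc⟩ := hPP _ hg0 hgU hgN
  obtain ⟨b, h, hh0, hfb⟩ := hHIL K K' (algebraMap F K m) (algebraMap F' K' s) hs' hn2 hK f c hf0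
    (by rw [hc]; ring)
  have hb0 : b ≠ 0 := by
    rintro rfl
    apply hf0
    rw [hfb, map_zero, zero_mul]
  -- the claim
  have claim : ∀ (b : K) (h : K'), b ≠ 0 → h ≠ 0 → f = algebraMap K K' b * h ^ 2 →
      IsSquare (Algebra.norm F b) → IsSquare f := by
    intro b h hb0 hh0 hfb hbN
    have h1 : ∀ w : HeightOneSpectrum (𝓞 K'), Un w (algebraMap K K' b) := fun w =>
      Un.of_sq (hfU w) hfb
    have h2 : ∀ v : HeightOneSpectrum (𝓞 K), Un v b := by
      intro v
      rcases hVF K K' (algebraMap F K m) (algebraMap F' K' s) hs' hn2 hK v b (fun w _ => h1 w)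
        with h3 | h3
      · exact h3
      · have h4 : Ab v (v.under (𝓞 F)) := rfl
        have h5 : Un (v.under (𝓞 F)) m := by
          rcases hram (v.under (𝓞 F)) with h6 | h6
          · exact h6
          · have h7 : Un (v.under (𝓞 F)) (Algebra.norm F (b * algebraMap F K m)) := by
              refine hUN F K (v.under (𝓞 F)) (b * algebraMap F K m) ?_ (mul_ne_zero hb0 hm0')
              intro v' hv'
              rw [h6 v' v hv' h4]
              exact h3
            obtain ⟨t, ht⟩ := hbN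
            refine Un.of_sq (h := t * m ^ j) h7 ?_
            rw [map_mul, hnm, ht]
            ring
        exact Un.of_mul h3 ((hUP F K (v.under (𝓞 F)) v h4).2.2.2 m h5)
    obtain ⟨d, hd⟩ := hPP b hb0 h2 hbN
    refine ⟨algebraMap K K' d * h, ?_⟩
    rw [hfb, hd, map_mul]
    ring
  -- the norm of `b`
  have h8 : IsSquare (algebraMap F F' (Algebra.norm F b)) := by
    rw [← hn3]
    obtain ⟨r, hr⟩ := hfN
    have h9 : Algebra.norm F' h ≠ 0 := by
      rw [Algebra.norm_ne_zero_iff]
      exact hh0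
    refine ⟨r / Algebra.norm F' h, ?_⟩
    have h10 : Algebra.norm F' (algebraMap K K' b) * Algebra.norm F' h ^ 2 = r * r := by
      rw [← hr, hfb, map_mul, map_pow]
    field_simp
    rw [h10]
    ring
  rcases hn4 _ h8 with h11 | h11
  · exact claim b h hb0 hh0 hfb h11
  · refine claim (b * algebraMap F K m) (h * (algebraMap F' K' s)⁻¹) (mul_ne_zero hb0 hm0')
      (mul_ne_zero hh0 (inv_ne_zero hs0)) ?_ ?_
    · rw [map_mul, ← hs', hfb]
      field_simp
    · rw [map_mul, hnm]
      obtain ⟨t, ht⟩ := h11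
      refine ⟨t * m ^ j, ?_⟩
      calc Algebra.norm F b * (m * (m ^ j) ^ 2) = (Algebra.norm F b * m) * (m ^ j) ^ 2 := by ring
        _ = _ := by rw [ht]; ring

end Pool.Agent.N720.LT
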